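import Mathlib

/-!
Down-posets.
-/

set_option autoImplicit false

namespace Pool.Agent.R612.DP

/-- A `↓`-poset: a poset isomorphic to `(D, ≤)`, where a semilattice `S` with identity acts on the
set `D` and `c ≤ d` iff `d s = c` for some `s` in `S`. -/
def IsDownPoset (C : Type) [PartialOrder C] : Prop :=
  ∃ (S : Type) (_ : CommMonoid S) (D : Type) (act : D → S → D),
    (∀ s : S, s * s = s) ∧ (∀ c s t, act c (s * t) = act (act c s) t) ∧ (∀ c, act c 1 = c) ∧
      ∃ e : C ≃ D, ∀ c d : C, c ≤ d ↔ ∃ s, act (e d) s = e c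

/-- `↓`-functions -/
structure IsDownFun {C : Type} [PartialOrder C] (f : C → C) : Prop where
  le : ∀ c, f c ≤ c
  mono : ∀ c d, c ≤ d → f c ≤ f d
  fix : ∀ c d, c ≤ f d → f c = c

variable {C : Type} [PartialOrder C]

theorem IsDownFun.idem {f : C → C} (hf : IsDownFun f) (c : C) : f (f c) = f c :=
  hf.fix _ c le_rfl

theorem IsDownFun.comp {f g : C → C} (hf : IsDownFun f) (hg : IsDownFun g) :
    IsDownFun fun c => f (g c) where
  le := fun c => (hf.le _).trans (hg.le _)
  mono := fun c d h => hf.mono _ _ (hg.mono _ _ h)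
  fix := fun c d h => by
    rw [hg.fix c d (h.trans (hf.le _)), hf.fix c _ h]

theorem IsDownFun.comm {f g : C → C} (hf : IsDownFun f) (hg : IsDownFun g) (c : C) :
    f (g c) = g (f c) := by
  have key : ∀ {f g : C → C}, IsDownFun f → IsDownFun g → ∀ c, f (g c) ≤ g (f c) := by
    intro f g hf hg c
    have h1 := hg.fix (f (g c)) c (hf.le _)
    rw [← h1]
    exact hg.mono _ _ (hf.mono _ _ (hg.le _))
  exact le_antisymm (key hf hg c) (key hg hf c)

theorem isDownFun_id : IsDownFun fun c : C => c :=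
  ⟨fun _ => le_rfl, fun _ _ h => h, fun _ _ _ => rfl⟩

/-- the characterization by `↓`-functions -/
theorem isDownPoset_iff : IsDownPoset C ↔ ∀ c d : C, c ≤ d → ∃ f : C → C, IsDownFun f ∧ f d = c := by
  constructor
  · rintro ⟨S, _, D, act, hidem, hact, hone, e, he⟩ c d hcd
    obtain ⟨s, hs⟩ := (he c d).1 hcd
    refine ⟨fun x => e.symm (act (e x) s), ⟨fun x => ?_, fun x y hxy => ?_, fun x y hxy => ?_⟩, ?_⟩
    · rw [he, Equiv.apply_symm_apply]
      exact ⟨s, rfl⟩
    · obtain ⟨t, ht⟩ := (he x y).1 hxy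
      rw [he, Equiv.apply_symm_apply, Equiv.apply_symm_apply]
      refine ⟨t, ?_⟩
      rw [← hact, ← ht, ← hact, mul_comm]
    · rw [he, Equiv.apply_symm_apply] at hxy
      obtain ⟨t, ht⟩ := hxy
      rw [Equiv.symm_apply_eq, ← ht, ← hact (act (e y) s) t s, ← hact (e y) s (t * s),
        ← hact (e y) s t, mul_comm t s, ← mul_assoc, hidem]
    · show e.symm (act (e d) s) = c
      rw [hs, Equiv.symm_apply_apply]
  · intro h
    refine ⟨{f : C → C // IsDownFun f},
      { mul := fun f g => ⟨fun c => f.1 (g.1 c), f.2.comp g.2⟩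
        mul_assoc := fun f g k => rfl
        one := ⟨fun c => c, isDownFun_id⟩
        one_mul := fun f => rfl
        mul_one := fun f => rfl
        mul_comm := fun f g => Subtype.ext (funext fun c => f.2.comm g.2 c) },
      C, fun c f => f.1 c, ?_, ?_, ?_, Equiv.refl C, ?_⟩
    · intro f
      exact Subtype.ext (funext fun c => f.2.idem c)
    · intro c f g
      exact f.2.comm g.2 c
    · intro c
      rfl
    · intro c d
      constructor
      · intro hcd
        obtain ⟨f, hf, hfd⟩ := h c d hcd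
        exact ⟨⟨f, hf⟩, hfd⟩
      · rintro ⟨f, hf⟩
        have := f.2.le d
        have hf' : f.1 d = c := hf
        rwa [hf'] at this

end Pool.Agent.R612.DP
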