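import Pool.Agent.R612.DP.Pos

/-!
Locality: the posets of two systems that are free and roomy enough satisfy the same sentences.
-/

set_option autoImplicit false

namespace Pool.Agent.R612.DP

open FirstOrder FirstOrder.Language

variable {G H : Type} [AddCommGroup G] [AddCommGroup H]

/-- free up to `R`, and with room for one more element beside any `N` -/
structure Good (S : Sys G) (N R : ℕ) : Prop where
  free : ∀ γ : ℤ × Bool, |γ.1| ≤ (R : ℤ) → ∀ g, S.act γ g = g → γ = (0, false)
  room : ∀ s : Finset G, s.card ≤ N → ∃ g, ∀ h ∈ s, ∀ γ : ℤ × Bool, |γ.1| ≤ (R : ℤ) → S.act γ h ≠ g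

theorem Good.mono {S : Sys G} {N R N' R' : ℕ} (h : Good S N R) (hN : N' ≤ N) (hR : R' ≤ R) :
    Good S N' R' where
  free := fun γ hγ g hg => h.free γ (hγ.trans (by exact_mod_cast hR)) g hg
  room := fun s hs => by
    obtain ⟨g, hg⟩ := h.room s (hs.trans hN)
    exact ⟨g, fun u hu γ hγ => hg u hu γ (hγ.trans (by exact_mod_cast hR))⟩

/-- similar tuples -/
structure Sim {S : Sys G} {T : Sys H} {n : ℕ} (R : ℕ) (x : Fin n → Pos S) (y : Fin n → Pos T) :
    Prop where
  kind : ∀ i, (x i).kind = (y i).kind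
  E : ∀ i j, ∀ γ : ℤ × Bool, |γ.1| ≤ (R : ℤ) → (Pos.E γ (x i) (x j) ↔ Pos.E γ (y i) (y j))

theorem Sim.mono {S : Sys G} {T : Sys H} {n : ℕ} {R R' : ℕ} {x : Fin n → Pos S} {y : Fin n → Pos T}
    (h : Sim R x y) (hR : R' ≤ R) : Sim R' x y where
  kind := h.kind
  E := fun i j γ hγ => h.E i j γ (hγ.trans (by exact_mod_cast hR))

theorem Sim.symm {S : Sys G} {T : Sys H} {n : ℕ} {R : ℕ} {x : Fin n → Pos S} {y : Fin n → Pos T}
    (h : Sim R x y) : Sim R y x where
  kind := fun i => (h.kind i).symm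
  E := fun i j γ hγ => (h.E i j γ hγ).symm

theorem Pos.eq_bot_of_kind {S : Sys G} {x : Pos S} (h : x.kind = none) : x = .bot := by
  rcases x with _ | ⟨k, g⟩
  · rfl
  · exact absurd h (by simp [Pos.kind])

theorem Pos.exists_of_kind {S : Sys G} {x : Pos S} {k : Fin 4} (h : x.kind = some k) :
    ∃ g, x = .el k g := by
  rcases x with _ | ⟨k', g⟩
  · exact absurd h (by simp [Pos.kind])
  · simp only [Pos.kind, Option.some.injEq] at h
    exact ⟨g, by rw [h]⟩

theorem Pos.E_el {S : Sys G} (γ : ℤ × Bool) (k k' : Fin 4) (g h : G) :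
    Pos.E (S := S) γ (.el k g) (.el k' h) ↔ S.act γ g = h := Iff.rfl

theorem Pos.E_bot_el {S : Sys G} (γ : ℤ × Bool) (k : Fin 4) (g : G) :
    ¬ Pos.E (S := S) γ .bot (.el k g) := fun h => h

theorem Pos.E_el_bot {S : Sys G} (γ : ℤ × Bool) (k : Fin 4) (g : G) :
    ¬ Pos.E (S := S) γ (.el k g) .bot := fun h => h

theorem Pos.E_bot {S : Sys G} (γ : ℤ × Bool) : Pos.E (S := S) γ .bot .bot := trivial

theorem Sim.eq_iff {S : Sys G} {T : Sys H} {n : ℕ} {R : ℕ} {x : Fin n → Pos S} {y : Fin n → Pos T}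
    (h : Sim R x y) (i j : Fin n) : x i = x j ↔ y i = y j := by
  have key : ∀ {G H : Type} [AddCommGroup G] [AddCommGroup H] {S : Sys G} {T : Sys H}
      {x : Fin n → Pos S} {y : Fin n → Pos T}, Sim R x y → x i = x j → y i = y j := by
    intro G H _ _ S T x y h hx
    have h1 := h.kind i
    have h2 := h.kind j
    have h3 := (h.E i j (0, false) (by simp)).1
    rw [← hx] at h2 h3
    rw [h1] at h2
    rcases hy : y i with _ | ⟨k, g⟩
    · rw [hy] at h2
      exact (Pos.eq_bot_of_kind h2.symm).symm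
    · rw [hy] at h2 h1
      obtain ⟨g', hg'⟩ := Pos.exists_of_kind h2.symm
      obtain ⟨u, hu⟩ := Pos.exists_of_kind h1
      rw [hu, hy, hg', Pos.E_el, Pos.E_el, S.act_zero, T.act_zero] at h3
      rw [hg', h3 rfl]
  exact ⟨key h, key h.symm⟩

theorem Sim.le_iff {S : Sys G} {T : Sys H} {n : ℕ} {R : ℕ} (hR : 1 ≤ R) {x : Fin n → Pos S}
    {y : Fin n → Pos T} (h : Sim R x y) (i j : Fin n) : x i ≤ x j ↔ y i ≤ y j := by
  have key : ∀ {G H : Type} [AddCommGroup G] [AddCommGroup H] {S : Sys G} {T : Sys H}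
      {x : Fin n → Pos S} {y : Fin n → Pos T}, Sim R x y → x i ≤ x j → y i ≤ y j := by
    intro G H _ _ S T x y h hx
    have h1 := h.kind i
    have h2 := h.kind j
    rcases hxi : x i with _ | ⟨k, g⟩
    · rw [hxi] at h1
      rw [Pos.eq_bot_of_kind h1.symm]
      exact Pos.none_le _
    · rcases hxj : x j with _ | ⟨k', g'⟩
      · rw [hxj, Pos.le_def, Pos.le_none] at hx
        rw [hx] at hxi
        exact absurd hxi (by simp)
      · rw [hxi] at h1
        rw [hxj] at h2
        obtain ⟨u, hu⟩ := Pos.exists_of_kind h1.symm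
        obtain ⟨v, hv⟩ := Pos.exists_of_kind h2.symm
        rw [hxi, hxj, Pos.le_def, Pos.le_some] at hx
        obtain ⟨γ, hγ, hg⟩ := hx
        rw [hu, hv, Pos.le_def, Pos.le_some]
        refine ⟨γ, hγ, ?_⟩
        have h3 := (h.E i j γ ((rel_small k k' γ hγ).trans (by exact_mod_cast hR))).1
        rw [hxi, hxj, hu, hv, Pos.E_el, Pos.E_el] at h3
        exact h3 hg
  exact ⟨key h, key h.symm⟩

/-- the relation between two elements given by an element of `ℤ × Bool`, shifted -/
theorem Sys.act_eq_act (S : Sys G) (γ δ : ℤ × Bool) (g h : G) :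
    S.act γ g = S.act δ h ↔ S.act (γ.1 - δ.1, xor γ.2 δ.2) g = h := by
  have h1 : S.act δ h = S.act γ g ↔ S.act (-δ.1, δ.2) (S.act γ g) = h := S.act_eq_iff δ h _
  rw [S.act_act] at h1
  rw [eq_comm, h1]
  have e : ((-δ.1 + γ.1, xor δ.2 γ.2) : ℤ × Bool) = (γ.1 - δ.1, xor γ.2 δ.2) := by
    rw [Bool.xor_comm]
    congr 1
    ring
  rw [e]

theorem extend {S : Sys G} {T : Sys H} {n R : ℕ} {x : Fin n → Pos S} {y : Fin n → Pos T}
    (hS : Good S n (2 * R)) (hT : Good T n (2 * R)) (h : Sim (2 * R) x y) (e : Pos S) :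
    ∃ e' : Pos T, Sim (n := n + 1) R (Fin.snoc x e : Fin (n + 1) → Pos S)
      (Fin.snoc y e' : Fin (n + 1) → Pos T) := by
  -- it suffices to treat the pairs with the new element
  have red : ∀ e' : Pos T, e.kind = e'.kind →
      (∀ i, ∀ γ : ℤ × Bool, |γ.1| ≤ (R : ℤ) → (Pos.E γ (x i) e ↔ Pos.E γ (y i) e')) →
      (∀ i, ∀ γ : ℤ × Bool, |γ.1| ≤ (R : ℤ) → (Pos.E γ e (x i) ↔ Pos.E γ e' (y i))) →
      Sim (n := n + 1) R (Fin.snoc x e : Fin (n + 1) → Pos S)
        (Fin.snoc y e' : Fin (n + 1) → Pos T) := by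
    intro e' hk h1 h2
    refine ⟨fun i => ?_, fun i j γ hγ => ?_⟩
    · refine Fin.lastCases ?_ (fun i => ?_) i
      · rw [Fin.snoc_last, Fin.snoc_last]
        exact hk
      · rw [Fin.snoc_castSucc, Fin.snoc_castSucc]
        exact h.kind i
    · refine Fin.lastCases ?_ (fun i => ?_) i
      · refine Fin.lastCases ?_ (fun j => ?_) j
        · rw [Fin.snoc_last, Fin.snoc_last]
          rcases e with _ | ⟨k, g⟩
          · rw [Pos.eq_bot_of_kind hk.symm]
            exact iff_of_true (Pos.E_bot γ) (Pos.E_bot γ)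
          · obtain ⟨g', hg'⟩ := Pos.exists_of_kind hk.symm
            rw [hg', Pos.E_el, Pos.E_el]
            have hγ' : |γ.1| ≤ ((2 * R : ℕ) : ℤ) := by push_cast; linarith
            constructor
            · intro h3
              rw [hS.free γ hγ' g h3, T.act_zero]
            · intro h3
              rw [hT.free γ hγ' g' h3, S.act_zero]
        · rw [Fin.snoc_last, Fin.snoc_last, Fin.snoc_castSucc, Fin.snoc_castSucc]
          exact h2 j γ hγ
      · refine Fin.lastCases ?_ (fun j => ?_) j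
        · rw [Fin.snoc_last, Fin.snoc_last, Fin.snoc_castSucc, Fin.snoc_castSucc]
          exact h1 i γ hγ
        · rw [Fin.snoc_castSucc, Fin.snoc_castSucc, Fin.snoc_castSucc, Fin.snoc_castSucc]
          exact h.E i j γ (by push_cast; linarith)
  rcases e with _ | ⟨k, g⟩
  · refine ⟨.bot, red _ rfl (fun i γ _ => ?_) (fun i γ _ => ?_)⟩
    · have h1 := h.kind i
      rcases hx : x i with _ | ⟨k, g⟩
      · rw [hx] at h1
        rw [Pos.eq_bot_of_kind h1.symm]
        exact iff_of_true (Pos.E_bot γ) (Pos.E_bot γ)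
      · rw [hx] at h1
        obtain ⟨g', hg'⟩ := Pos.exists_of_kind h1.symm
        rw [hg']
        exact iff_of_false (Pos.E_el_bot _ _ _) (Pos.E_el_bot _ _ _)
    · have h1 := h.kind i
      rcases hx : x i with _ | ⟨k, g⟩
      · rw [hx] at h1
        rw [Pos.eq_bot_of_kind h1.symm]
        exact iff_of_true (Pos.E_bot γ) (Pos.E_bot γ)
      · rw [hx] at h1
        obtain ⟨g', hg'⟩ := Pos.exists_of_kind h1.symm
        rw [hg']
        exact iff_of_false (Pos.E_bot_el _ _ _) (Pos.E_bot_el _ _ _)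
  · by_cases hc : ∃ i, ∃ γ : ℤ × Bool, |γ.1| ≤ (R : ℤ) ∧ Pos.E γ (x i) (.el k g)
    · obtain ⟨a, γ₀, hγ₀, hE⟩ := hc
      rcases hxa : x a with _ | ⟨k1, u⟩
      · rw [hxa] at hE
        exact absurd hE (Pos.E_bot_el _ _ _)
      · rw [hxa, Pos.E_el] at hE
        have h1 := h.kind a
        rw [hxa] at h1
        obtain ⟨u', hu'⟩ := Pos.exists_of_kind h1.symm
        refine ⟨.el k (T.act γ₀ u'), red _ rfl (fun i γ hγ => ?_) (fun i γ hγ => ?_)⟩
        · have h2 := h.kind i
          rcases hx : x i with _ | ⟨k2, v⟩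
          · rw [hx] at h2
            rw [Pos.eq_bot_of_kind h2.symm]
            exact iff_of_false (Pos.E_bot_el _ _ _) (Pos.E_bot_el _ _ _)
          · rw [hx] at h2
            obtain ⟨v', hv'⟩ := Pos.exists_of_kind h2.symm
            rw [hv', Pos.E_el, Pos.E_el, ← hE, Sys.act_eq_act, Sys.act_eq_act]
            have h3 := h.E i a (γ.1 - γ₀.1, xor γ.2 γ₀.2) (by
              rw [abs_le] at hγ hγ₀ ⊢
              push_cast
              constructor <;> linarith [hγ.1, hγ.2, hγ₀.1, hγ₀.2])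
            rw [hx, hxa, hv', hu', Pos.E_el, Pos.E_el] at h3
            exact h3
        · have h2 := h.kind i
          rcases hx : x i with _ | ⟨k2, v⟩
          · rw [hx] at h2
            rw [Pos.eq_bot_of_kind h2.symm]
            exact iff_of_false (Pos.E_el_bot _ _ _) (Pos.E_el_bot _ _ _)
          · rw [hx] at h2
            obtain ⟨v', hv'⟩ := Pos.exists_of_kind h2.symm
            rw [hv', Pos.E_el, Pos.E_el, ← hE, Sys.act_act, Sys.act_act]
            have h3 := h.E a i (γ.1 + γ₀.1, xor γ.2 γ₀.2) (by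
              rw [abs_le] at hγ hγ₀ ⊢
              push_cast
              constructor <;> linarith [hγ.1, hγ.2, hγ₀.1, hγ₀.2])
            rw [hx, hxa, hv', hu', Pos.E_el, Pos.E_el] at h3
            exact h3
    · classical
      let s : Finset H := Finset.univ.image fun i : Fin n => match y i with
        | .bot => 0
        | .el _ h => h
      obtain ⟨g', hg'⟩ := hT.room s (Finset.card_image_le.trans (by simp))
      have hmem : ∀ i k' v, y i = .el k' v → v ∈ s := by
        intro i k' v hi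
        refine Finset.mem_image.2 ⟨i, Finset.mem_univ _, ?_⟩
        simp only [hi]
      refine ⟨.el k g', red _ rfl (fun i γ hγ => ?_) (fun i γ hγ => ?_)⟩
      · refine iff_of_false (fun hn => hc ⟨i, γ, hγ, hn⟩) (fun hn => ?_)
        rcases hy : y i with _ | ⟨k2, v⟩
        · rw [hy] at hn
          exact Pos.E_bot_el _ _ _ hn
        · rw [hy, Pos.E_el] at hn
          exact hg' v (hmem i k2 v hy) γ (by push_cast; linarith) hn
      · refine iff_of_false (fun hn => ?_) (fun hn => ?_)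
        · rcases hx : x i with _ | ⟨k2, v⟩
          · rw [hx] at hn
            exact Pos.E_el_bot _ _ _ hn
          · rw [hx, Pos.E_el, Sys.act_eq_iff] at hn
            refine hc ⟨i, (-γ.1, γ.2), by simpa using hγ, ?_⟩
            rw [hx, Pos.E_el]
            exact hn
        · rcases hy : y i with _ | ⟨k2, v⟩
          · rw [hy] at hn
            exact Pos.E_el_bot _ _ _ hn
          · rw [hy, Pos.E_el, Sys.act_eq_iff] at hn
            exact hg' v (hmem i k2 v hy) (-γ.1, γ.2) (by push_cast; rw [abs_neg]; linarith) hn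

attribute [local instance] orderStructure

theorem term_var {n : ℕ} (t : Language.order.Term (Empty ⊕ Fin n)) :
    ∃ i : Fin n, t = Term.var (Sum.inr i) := by
  rcases t with (e | i) | ⟨f, _⟩
  · exact e.elim
  · exact ⟨i, rfl⟩
  · exact Empty.elim f

theorem realize_iff {n : ℕ} (φ : Language.order.BoundedFormula Empty n) :
    ∃ N R : ℕ, 1 ≤ R ∧ ∀ (G H : Type) [AddCommGroup G] [AddCommGroup H] (S : Sys G) (T : Sys H),
      Good S N R → Good T N R → ∀ (x : Fin n → Pos S) (y : Fin n → Pos T), Sim R x y →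
        (φ.Realize default x ↔ φ.Realize default y) := by
  induction φ with
  | falsum => exact ⟨0, 1, le_rfl, fun _ _ _ _ _ _ _ _ _ _ _ => Iff.rfl⟩
  | equal t₁ t₂ =>
    obtain ⟨i, rfl⟩ := term_var t₁
    obtain ⟨j, rfl⟩ := term_var t₂
    refine ⟨0, 1, le_rfl, fun G H _ _ S T _ _ x y h => ?_⟩
    exact h.eq_iff i j
  | rel r ts =>
    cases r
    obtain ⟨i, hi⟩ := term_var (ts 0)
    obtain ⟨j, hj⟩ := term_var (ts 1)
    refine ⟨0, 1, le_rfl, fun G H _ _ S T _ _ x y h => ?_⟩
    have h1 := h.le_iff le_rfl i j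
    have e1 : ∀ {G : Type} [AddCommGroup G] {S : Sys G} (x : Fin _ → Pos S),
        (BoundedFormula.rel orderRel.le ts : Language.order.BoundedFormula Empty _).Realize
          default x ↔ x i ≤ x j := by
      intro G _ S x
      show (ts 0).realize (Sum.elim default x) ≤ (ts 1).realize (Sum.elim default x) ↔ _
      rw [hi, hj]
      rfl
    rw [e1, e1]
    exact h1
  | imp _ _ ih₁ ih₂ =>
    obtain ⟨N₁, R₁, h₁, ih₁⟩ := ih₁
    obtain ⟨N₂, R₂, h₂, ih₂⟩ := ih₂
    refine ⟨max N₁ N₂, max R₁ R₂, h₁.trans (le_max_left _ _), fun G H _ _ S T hS hT x y h => ?_⟩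
    rw [BoundedFormula.realize_imp, BoundedFormula.realize_imp,
      ih₁ G H S T (hS.mono (le_max_left _ _) (le_max_left _ _))
        (hT.mono (le_max_left _ _) (le_max_left _ _)) x y (h.mono (le_max_left _ _)),
      ih₂ G H S T (hS.mono (le_max_right _ _) (le_max_right _ _))
        (hT.mono (le_max_right _ _) (le_max_right _ _)) x y (h.mono (le_max_right _ _))]
  | @all m φ ih =>
    obtain ⟨N, R, hR, ih⟩ := ih
    refine ⟨max N m, 2 * R, by omega, ?_⟩
    have key : ∀ (G H : Type) [AddCommGroup G] [AddCommGroup H] (S : Sys G) (T : Sys H),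
      Good S (max N m) (2 * R) → Good T (max N m) (2 * R) → ∀ (x : Fin m → Pos S) (y : Fin m → Pos T),
        Sim (2 * R) x y → φ.all.Realize default y → φ.all.Realize default x := by
      intro G H _ _ S T hS hT x y h hy e
      obtain ⟨e', he'⟩ := extend (hS.mono (le_max_right _ _) le_rfl)
        (hT.mono (le_max_right _ _) le_rfl) h e
      exact (ih G H S T (hS.mono (le_max_left _ _) (by omega)) (hT.mono (le_max_left _ _) (by omega))
        _ _ he').2 (hy e')
    intro G H _ _ S T hS hT x y h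
    exact ⟨key H G T S hT hS y x h.symm, key G H S T hS hT x y h⟩

end Pool.Agent.R612.DP
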