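import Pool.Agent.R612.DP.Defs

/-!
The posets of points, lines and planes over a group with two distinguished elements.
-/

set_option autoImplicit false

namespace Pool.Agent.R612.DP

/-- an abelian group with two distinguished elements, the second one of order two -/
structure Sys (G : Type) [AddCommGroup G] where
  a : G
  b : G
  hb : b + b = 0

variable {G H : Type} [AddCommGroup G] [AddCommGroup H]

/-- the action of `ℤ × Bool` -/
def Sys.act (S : Sys G) (γ : ℤ × Bool) (g : G) : G := g + γ.1 • S.a + if γ.2 then S.b else 0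

theorem Sys.act_act (S : Sys G) (γ δ : ℤ × Bool) (g : G) :
    S.act δ (S.act γ g) = S.act (δ.1 + γ.1, xor δ.2 γ.2) g := by
  obtain ⟨n, ε⟩ := γ
  obtain ⟨m, η⟩ := δ
  have hb := S.hb
  cases ε <;> cases η <;> simp only [Sys.act, add_zsmul] <;> simp
  · abel
  · abel
  · abel
  · have e : g + n • S.a + S.b + m • S.a + S.b = g + (m • S.a + n • S.a) + (S.b + S.b) := by abel
    rw [e, hb, add_zero]

theorem Sys.act_zero (S : Sys G) (g : G) : S.act (0, false) g = g := by
  simp [Sys.act]

theorem Sys.act_eq_iff (S : Sys G) (γ : ℤ × Bool) (g h : G) :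
    S.act γ g = h ↔ S.act (-γ.1, γ.2) h = g := by
  constructor
  · rintro rfl
    rw [S.act_act]
    simp only [neg_add_cancel, Bool.xor_self]
    exact S.act_zero g
  · rintro rfl
    rw [S.act_act]
    simp only [add_neg_cancel, Bool.xor_self]
    exact S.act_zero h

/-- `(k, g) ≤ (k', h)` iff `h` is the image of `g` under one of these elements -/
def rel : Fin 4 → Fin 4 → Finset (ℤ × Bool)
  | 0, 0 => {(0, false)}
  | 1, 1 => {(0, false)}
  | 2, 2 => {(0, false)}
  | 3, 3 => {(0, false)}
  | 0, 2 => {(0, false), (1, false)}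
  | 1, 2 => {(0, false), (1, false)}
  | 0, 3 => {(0, false), (1, false), (0, true), (1, true)}
  | 1, 3 => {(0, false), (1, false), (0, true), (1, true)}
  | 2, 3 => {(0, false), (0, true)}
  | _, _ => ∅

theorem rel_refl : ∀ k, (0, false) ∈ rel k k := by decide

theorem rel_trans : ∀ k k' k'' : Fin 4, ∀ γ ∈ rel k k', ∀ δ ∈ rel k' k'',
    (δ.1 + γ.1, xor δ.2 γ.2) ∈ rel k k'' := by decide

theorem rel_antisymm : ∀ k k' : Fin 4, ∀ γ ∈ rel k k', ∀ δ ∈ rel k' k, k = k' ∧ γ = (0, false) := by
  decide

theorem rel_small : ∀ k k' : Fin 4, ∀ γ ∈ rel k k', |γ.1| ≤ 1 := by decide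

/-- the poset: a bottom element, the points `(0, g)`, `(1, g)`, the lines `(2, g)` and the planes
`(3, g)` -/
inductive Pos (S : Sys G) : Type
  | bot : Pos S
  | el (k : Fin 4) (g : G) : Pos S

/-- the kind of an element -/
def Pos.kind {S : Sys G} : Pos S → Option (Fin 4)
  | .bot => none
  | .el k _ => some k

/-- the relation given by an element of `ℤ × Bool` -/
def Pos.E {S : Sys G} (γ : ℤ × Bool) : Pos S → Pos S → Prop
  | .bot, .bot => True
  | .el _ g, .el _ h => S.act γ g = h
  | _, _ => False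

/-- the order -/
def Pos.le {S : Sys G} : Pos S → Pos S → Prop
  | .bot, _ => True
  | .el k g, .el k' h => ∃ γ ∈ rel k k', S.act γ g = h
  | .el _ _, .bot => False

theorem Pos.le_some {S : Sys G} (k k' : Fin 4) (g h : G) :
    Pos.le (S := S) (.el k g) (.el k' h) ↔ ∃ γ ∈ rel k k', S.act γ g = h := Iff.rfl

theorem Pos.none_le {S : Sys G} (y : Pos S) : Pos.le (S := S) .bot y := trivial

theorem Pos.le_none {S : Sys G} (y : Pos S) : Pos.le (S := S) y .bot ↔ y = .bot := by
  cases y with
  | bot => exact iff_of_true trivial rfl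
  | el k g => exact iff_of_false (fun h => h) (by simp)

instance (S : Sys G) : PartialOrder (Pos S) where
  le := Pos.le
  le_refl := by
    rintro (_ | ⟨k, g⟩)
    · exact Pos.none_le _
    · exact (Pos.le_some _ _ _ _).2 ⟨_, rel_refl k, S.act_zero g⟩
  le_trans := by
    rintro (_ | ⟨k, g⟩) (_ | ⟨k', g'⟩) (_ | ⟨k'', g''⟩) h1 h2
    · exact Pos.none_le _
    · exact Pos.none_le _
    · exact Pos.none_le _
    · exact Pos.none_le _
    · exact h1
    · exact absurd ((Pos.le_none _).1 h1) (by simp)
    · exact absurd ((Pos.le_none _).1 h2) (by simp)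
    · obtain ⟨γ, hγ, h3⟩ := (Pos.le_some _ _ _ _).1 h1
      obtain ⟨δ, hδ, h4⟩ := (Pos.le_some _ _ _ _).1 h2
      refine (Pos.le_some _ _ _ _).2 ⟨_, rel_trans k k' k'' γ hγ δ hδ, ?_⟩
      rw [← S.act_act, h3, h4]
  le_antisymm := by
    rintro (_ | ⟨k, g⟩) (_ | ⟨k', g'⟩) h1 h2
    · rfl
    · exact absurd ((Pos.le_none _).1 h2) (by simp)
    · exact absurd ((Pos.le_none _).1 h1) (by simp)
    · obtain ⟨γ, hγ, h3⟩ := (Pos.le_some _ _ _ _).1 h1
      obtain ⟨δ, hδ, h4⟩ := (Pos.le_some _ _ _ _).1 h2
      obtain ⟨rfl, rfl⟩ := rel_antisymm k k' γ hγ δ hδ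
      rw [S.act_zero] at h3
      rw [h3]

instance (S : Sys G) [Finite G] : Finite (Pos S) :=
  Finite.of_injective (fun x : Pos S => match x with
    | .bot => (none : Option (Fin 4 × G))
    | .el k g => some (k, g)) (by
      rintro (_ | ⟨k, g⟩) (_ | ⟨k', g'⟩) h
      · rfl
      · simp at h
      · simp at h
      · simpa using h)

theorem Pos.le_def {S : Sys G} (x y : Pos S) : x ≤ y ↔ Pos.le x y := Iff.rfl

/-! ### The twisted posets are not down-posets -/

theorem not_down {S : Sys G} {n : ℕ} (hn : (n : ℤ) • S.a = S.b) (hb : S.b ≠ 0) :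
    ¬ IsDownPoset (Pos S) := by
  rw [isDownPoset_iff]
  intro h
  have h0 : (Pos.el 2 0 : Pos S) ≤ Pos.el 3 0 := by
    rw [Pos.le_def, Pos.le_some]
    exact ⟨(0, false), by decide, S.act_zero 0⟩
  obtain ⟨f, hf, hf0⟩ := h _ _ h0
  have hstep : ∀ g : G, f (Pos.el 2 g) = Pos.el 2 g →
      f (Pos.el 2 (g + S.a)) = Pos.el 2 (g + S.a) := by
    intro g hg
    have hp : ∀ k : Fin 4, (k = 0 ∨ k = 1) → f (Pos.el k g) = Pos.el k g := by
      intro k hk
      refine hf.fix _ (Pos.el 2 g) ?_
      rw [hg, Pos.le_def, Pos.le_some]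
      refine ⟨(0, false), ?_, S.act_zero g⟩
      rcases hk with rfl | rfl <;> decide
    have hp' : ∀ k : Fin 4, (k = 0 ∨ k = 1) → (Pos.el k g : Pos S) ≤ f (Pos.el 2 (g + S.a)) := by
      intro k hk
      rw [← hp k hk]
      refine hf.mono _ _ ?_
      rw [Pos.le_def, Pos.le_some]
      refine ⟨(1, false), ?_, by simp [Sys.act]⟩
      rcases hk with rfl | rfl <;> decide
    have hle := hf.le (Pos.el 2 (g + S.a))
    have h1 := hp' 0 (Or.inl rfl)
    have h2 := hp' 1 (Or.inr rfl)
    revert hle h1 h2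
    generalize f (Pos.el 2 (g + S.a)) = w
    rcases w with _ | ⟨k, g'⟩
    · intro _ h1 _
      exact absurd ((Pos.le_none _).1 h1) (by simp)
    · intro hle h1 h2
      obtain ⟨γ, hγ, h3⟩ := (Pos.le_some _ _ _ _).1 hle
      obtain ⟨δ, hδ, -⟩ := (Pos.le_some _ _ _ _).1 h1
      obtain ⟨η, hη, -⟩ := (Pos.le_some _ _ _ _).1 h2
      have : ∀ k : Fin 4, ∀ γ ∈ rel k 2, ∀ δ ∈ rel 0 k, ∀ η ∈ rel 1 k, k = 2 ∧ γ = (0, false) := by
        decide
      obtain ⟨rfl, rfl⟩ := this k γ hγ δ hδ η hη
      rw [S.act_zero] at h3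
      rw [h3]
  have hall : ∀ m : ℕ, f (Pos.el 2 ((m : ℤ) • S.a)) = Pos.el 2 ((m : ℤ) • S.a) := by
    intro m
    induction m with
    | zero =>
      simp only [Nat.cast_zero, zero_smul]
      refine hf.fix _ (Pos.el 3 0) ?_
      rw [hf0]
    | succ m ih =>
      have := hstep _ ih
      have e : ((m + 1 : ℕ) : ℤ) • S.a = (m : ℤ) • S.a + S.a := by
        push_cast
        rw [add_smul, one_smul]
      rw [e]
      exact this
  have h1 := hall n
  rw [hn] at h1
  have h2 : (Pos.el 2 S.b : Pos S) ≤ Pos.el 3 0 := by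
    rw [Pos.le_def, Pos.le_some]
    exact ⟨(0, true), by decide, by simp [Sys.act, S.hb]⟩
  have h3 := hf.mono _ _ h2
  rw [h1, hf0, Pos.le_def, Pos.le_some] at h3
  obtain ⟨γ, hγ, h4⟩ := h3
  have h6 : ∀ γ ∈ rel 2 2, γ = (0, false) := by decide
  have h5 : γ = (0, false) := h6 γ hγ
  rw [h5, S.act_zero] at h4
  exact hb h4

/-! ### The straight posets are down-posets -/

open Classical in
/-- the `↓`-function of a track -/
noncomputable def track (S : Sys G) (A : Set G) : Pos S → Pos S
  | .bot => .bot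
  | .el k g => if k = 3 then (if g ∈ A then Pos.el 2 g else Pos.el 2 (g + S.b))
      else if g ∈ A then Pos.el k g else .bot

theorem track_down {S : Sys G} {A : Set G} (hA : ∀ g, g + S.a ∈ A ↔ g ∈ A)
    (hA' : ∀ g, g + S.b ∈ A ↔ g ∉ A) : IsDownFun (track S A) := by
  classical
  have h3 : ∀ g, track S A (Pos.el 3 g) = Pos.el 2 (if g ∈ A then g else g + S.b) := by
    intro g
    by_cases hg : g ∈ A <;> simp [track, hg]
  have hk : ∀ k : Fin 4, k ≠ 3 → ∀ g, track S A (Pos.el k g) = if g ∈ A then Pos.el k g else Pos.bot := by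
    intro k hk g
    simp [track, hk]
  -- the elements of the image
  have hfix : ∀ k : Fin 4, k ≠ 3 → ∀ g ∈ A, ∀ x : Pos S, x ≤ Pos.el k g → track S A x = x := by
    rintro k hk3 g hg (_ | ⟨k', g'⟩) hx
    · rfl
    · obtain ⟨γ, hγ, h⟩ := (Pos.le_some _ _ _ _).1 hx
      have hcase : ∀ k k' : Fin 4, k ≠ 3 → ∀ γ ∈ rel k' k, k' ≠ 3 ∧ γ.2 = false ∧ (γ.1 = 0 ∨ γ.1 = 1) := by
        decide
      obtain ⟨h1, h2, h4⟩ := hcase k k' hk3 γ hγ
      have hg' : g' ∈ A := by
        rw [← h] at hg
        rcases h4 with h4 | h4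
        · simpa [Sys.act, h2, h4] using hg
        · have : g' + S.a ∈ A := by simpa [Sys.act, h2, h4] using hg
          exact (hA g').1 this
      rw [hk k' h1, if_pos hg']
  refine ⟨?_, ?_, ?_⟩
  · rintro (_ | ⟨k, g⟩)
    · exact le_rfl
    · by_cases hk3 : k = 3
      · subst hk3
        rw [h3, Pos.le_def, Pos.le_some]
        by_cases hg : g ∈ A
        · rw [if_pos hg]
          exact ⟨(0, false), by decide, S.act_zero g⟩
        · rw [if_neg hg]
          refine ⟨(0, true), by decide, ?_⟩
          simp [Sys.act, add_assoc, S.hb]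
      · rw [hk k hk3]
        split_ifs
        · exact le_rfl
        · exact Pos.none_le _
  · rintro (_ | ⟨k, g⟩) (_ | ⟨k', g'⟩) hle
    · exact Pos.none_le _
    · exact Pos.none_le _
    · exact absurd ((Pos.le_none _).1 hle) (by simp)
    · obtain ⟨γ, hγ, h⟩ := (Pos.le_some _ _ _ _).1 hle
      by_cases hk3 : k = 3
      · subst hk3
        have : ∀ k' : Fin 4, ∀ γ ∈ rel 3 k', k' = 3 ∧ γ = (0, false) := by decide
        obtain ⟨rfl, rfl⟩ := this k' γ hγ
        rw [S.act_zero] at h
        rw [h]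
      · rw [hk k hk3]
        split_ifs with hg
        · by_cases hk3' : k' = 3
          · subst hk3'
            rw [h3, Pos.le_def, Pos.le_some]
            have hcase : ∀ k : Fin 4, k ≠ 3 → ∀ γ ∈ rel k 3, (γ.1, false) ∈ rel k 2 ∧
                (γ.1 = 0 ∨ γ.1 = 1) := by decide
            obtain ⟨h1, h2⟩ := hcase k hk3 γ hγ
            refine ⟨(γ.1, false), h1, ?_⟩
            have hgA : g + γ.1 • S.a ∈ A := by
              rcases h2 with h2 | h2
              · simpa [h2] using hg
              · simpa [h2, hA] using hg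
            rcases hε : γ.2 with _ | _
            · have e : g' = g + γ.1 • S.a := by
                rw [← h]
                simp [Sys.act, hε]
              rw [e, if_pos hgA]
              simp [Sys.act]
            · have e : g' = g + γ.1 • S.a + S.b := by
                rw [← h]
                simp [Sys.act, hε]
              have hn : g' ∉ A := by
                rw [e, hA']
                simpa using hgA
              rw [if_neg hn, e]
              simp [Sys.act, add_assoc, S.hb]
          · rw [hk k' hk3']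
            have hcase : ∀ k k' : Fin 4, k ≠ 3 → k' ≠ 3 → ∀ γ ∈ rel k k', γ.2 = false ∧
                (γ.1 = 0 ∨ γ.1 = 1) := by decide
            obtain ⟨h1, h2⟩ := hcase k k' hk3 hk3' γ hγ
            have hg' : g' ∈ A := by
              rw [← h]
              rcases h2 with h2 | h2
              · simpa [Sys.act, h1, h2] using hg
              · simpa [Sys.act, h1, h2, hA] using hg
            rw [if_pos hg']
            exact hle
        · exact Pos.none_le _
  · rintro x (_ | ⟨k, g⟩) hle
    · have : x = .bot := (Pos.le_none _).1 hle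
      rw [this]
      rfl
    · by_cases hk3 : k = 3
      · subst hk3
        rw [h3] at hle
        refine hfix 2 (by decide) _ ?_ x hle
        by_cases hg : g ∈ A
        · rwa [if_pos hg]
        · rw [if_neg hg, hA']
          exact hg
      · rw [hk k hk3] at hle
        by_cases hg : g ∈ A
        · rw [if_pos hg] at hle
          exact hfix k hk3 g hg x hle
        · rw [if_neg hg] at hle
          have : x = .bot := (Pos.le_none _).1 hle
          rw [this]
          rfl

open Classical in
/-- the `↓`-function of an atom -/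
noncomputable def atom {S : Sys G} (c : Pos S) (x : Pos S) : Pos S := if c ≤ x then c else .bot

theorem atom_down {S : Sys G} {c : Pos S} (hc : ∀ x, x ≤ c → x = .bot ∨ x = c) :
    IsDownFun (atom c) := by
  classical
  refine ⟨fun x => ?_, fun x y hxy => ?_, fun x y hxy => ?_⟩
  · unfold atom
    split_ifs with h
    · exact h
    · exact Pos.none_le _
  · unfold atom
    by_cases h : c ≤ x
    · rw [if_pos h, if_pos (h.trans hxy)]
    · rw [if_neg h]
      exact Pos.none_le _
  · unfold atom at hxy ⊢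
    have h1 : x = .bot ∨ x = c := by
      by_cases h : c ≤ y
      · rw [if_pos h] at hxy
        exact hc x hxy
      · rw [if_neg h] at hxy
        exact Or.inl ((Pos.le_none _).1 hxy)
    rcases h1 with rfl | rfl
    · by_cases h : c ≤ .bot
      · rw [if_pos h]
        exact (Pos.le_none _).1 h
      · rw [if_neg h]
    · rw [if_pos le_rfl]

theorem is_down {S : Sys G} (h : ∀ g : G, ∃ A : Set G, (∀ g, g + S.a ∈ A ↔ g ∈ A) ∧
    (∀ g, g + S.b ∈ A ↔ g ∉ A) ∧ g ∈ A) : IsDownPoset (Pos S) := by
  classical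
  rw [isDownPoset_iff]
  rintro (_ | ⟨k, g⟩) d hcd
  · refine ⟨fun _ => .bot, ⟨fun _ => Pos.none_le _, fun _ _ _ => le_rfl, fun x _ hx => ?_⟩, rfl⟩
    exact ((Pos.le_none _).1 hx).symm
  · by_cases hk : k = 0 ∨ k = 1
    · refine ⟨atom (Pos.el k g), atom_down ?_, if_pos hcd⟩
      rintro (_ | ⟨k', g'⟩) hx
      · exact Or.inl rfl
      · right
        obtain ⟨γ, hγ, h1⟩ := (Pos.le_some _ _ _ _).1 hx
        have : ∀ k k' : Fin 4, (k = 0 ∨ k = 1) → ∀ γ ∈ rel k' k, k' = k ∧ γ = (0, false) := by
          decide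
        obtain ⟨rfl, rfl⟩ := this k k' hk γ hγ
        rw [S.act_zero] at h1
        rw [h1]
    · rcases d with _ | ⟨k', g'⟩
      · exact absurd ((Pos.le_none _).1 hcd) (by simp)
      · obtain ⟨γ, hγ, h1⟩ := (Pos.le_some _ _ _ _).1 hcd
        have : ∀ k k' : Fin 4, ¬ (k = 0 ∨ k = 1) → ∀ γ ∈ rel k k', (k' = k ∧ γ = (0, false)) ∨
            (k = 2 ∧ k' = 3 ∧ γ.1 = 0) := by decide
        rcases this k k' hk γ hγ with ⟨rfl, rfl⟩ | ⟨rfl, rfl, h2⟩
        · rw [S.act_zero] at h1
          rw [← h1]
          exact ⟨fun x => x, isDownFun_id, rfl⟩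
        · obtain ⟨A, hA1, hA2, hA3⟩ := h g
          refine ⟨track S A, track_down hA1 hA2, ?_⟩
          rcases hε : γ.2 with _ | _
          · have e : g' = g := by
              rw [← h1]
              simp [Sys.act, hε, h2]
            rw [e]
            simp [track, hA3]
          · have e : g' = g + S.b := by
              rw [← h1]
              simp [Sys.act, hε, h2]
            have hn : g' ∉ A := by
              rw [e, hA2]
              simpa using hA3
            have hn' : g + S.b ∉ A := e ▸ hn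
            rw [e]
            simp [track, hn', add_assoc, S.hb]

end Pool.Agent.R612.DP
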