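import Pool.Agent.R612.DP.Game

/-!
The straight and the twisted systems.
-/

set_option autoImplicit false

namespace Pool.Agent.R612.DP

open FirstOrder FirstOrder.Language

/-- `(1, 0)` and `(0, 1)` in `ℤ/M × ℤ/2` -/
def straight (M : ℕ) : Sys (ZMod M × ZMod 2) where
  a := (1, 0)
  b := (0, 1)
  hb := by
    have : (1 : ZMod 2) + 1 = 0 := by decide
    simp [this]

/-- `1` and `M` in `ℤ/2M` -/
def twisted (M : ℕ) : Sys (ZMod (2 * M)) where
  a := 1
  b := (M : ZMod (2 * M))
  hb := by
    have h : ((2 * M : ℕ) : ZMod (2 * M)) = 0 := ZMod.natCast_self _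
    push_cast at h
    rw [← h]
    ring

theorem straight_down (M : ℕ) : IsDownPoset (Pos (straight M)) := by
  refine is_down fun g => ⟨{h | h.2 = g.2}, fun h => ?_, fun h => ?_, rfl⟩
  · simp [straight]
  · have key : ∀ u v : ZMod 2, u + 1 = v ↔ ¬ u = v := by decide
    simpa [straight] using key h.2 g.2

theorem twisted_not_down {M : ℕ} (hM : 0 < M) : ¬ IsDownPoset (Pos (twisted M)) := by
  refine not_down (n := M) ?_ ?_
  · simp [twisted]
  · simp only [twisted, ne_eq]
    rw [ZMod.natCast_eq_zero_iff]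
    intro h
    have := Nat.le_of_dvd hM h
    omega

theorem room_of_card {G : Type} [AddCommGroup G] [Finite G] (S : Sys G) (N R : ℕ)
    (hG : N * ((2 * R + 1) * 2) < Nat.card G) (s : Finset G) (hs : s.card ≤ N) :
    ∃ g, ∀ h ∈ s, ∀ γ : ℤ × Bool, |γ.1| ≤ (R : ℤ) → S.act γ h ≠ g := by
  classical
  have := Fintype.ofFinite G
  let t : Finset G := (s ×ˢ (Finset.Icc (-(R : ℤ)) R ×ˢ Finset.univ)).image fun p => S.act p.2 p.1
  have ht : t.card < Fintype.card G := by
    rw [Nat.card_eq_fintype_card] at hG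
    refine lt_of_le_of_lt ?_ hG
    refine Finset.card_image_le.trans ?_
    rw [Finset.card_product, Finset.card_product, Finset.card_univ, Fintype.card_bool, Int.card_Icc]
    have : ((R : ℤ) + 1 - -(R : ℤ)).toNat = 2 * R + 1 := by omega
    rw [this]
    exact Nat.mul_le_mul_right _ hs
  obtain ⟨g, hg⟩ : ∃ g, g ∉ t := by
    by_contra hcon
    push Not at hcon
    have : t = Finset.univ := Finset.eq_univ_iff_forall.2 hcon
    rw [this, Finset.card_univ] at ht
    exact lt_irrefl _ ht
  refine ⟨g, fun h hh γ hγ he => hg ?_⟩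
  refine Finset.mem_image.2 ⟨(h, γ), ?_, he⟩
  rw [Finset.mem_product, Finset.mem_product, Finset.mem_Icc]
  exact ⟨hh, abs_le.1 hγ, Finset.mem_univ _⟩

theorem straight_good {M N R : ℕ} (hM : R < M) (hM' : N * ((2 * R + 1) * 2) < M) :
    Good (straight M) N R := by
  have : NeZero M := ⟨by omega⟩
  refine ⟨fun γ hγ g hg => ?_, fun s hs => room_of_card _ N R ?_ s hs⟩
  · obtain ⟨n, ε⟩ := γ
    simp only at hγ
    rw [Sys.act, add_assoc, add_eq_left] at hg
    have h1 := congrArg Prod.fst hg
    have h2 := congrArg Prod.snd hg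
    cases ε
    · simp only [straight] at h1
      have h3 : ((n : ℤ) : ZMod M) = 0 := by simpa using h1
      rw [ZMod.intCast_zmod_eq_zero_iff_dvd] at h3
      have : n = 0 := Int.eq_zero_of_abs_lt_dvd h3 (by omega)
      rw [this]
    · simp [straight] at h2
  · rw [Nat.card_prod, Nat.card_zmod, Nat.card_zmod]
    omega

theorem twisted_good {M N R : ℕ} (hM : R < M) (hM' : N * ((2 * R + 1) * 2) < M) :
    Good (twisted M) N R := by
  have : NeZero (2 * M) := ⟨by omega⟩
  refine ⟨fun γ hγ g hg => ?_, fun s hs => room_of_card _ N R ?_ s hs⟩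
  · obtain ⟨n, ε⟩ := γ
    simp only at hγ
    rw [Sys.act, add_assoc, add_eq_left] at hg
    rw [abs_le] at hγ
    cases ε
    · simp only [twisted] at hg
      have h3 : ((n : ℤ) : ZMod (2 * M)) = 0 := by simpa using hg
      rw [ZMod.intCast_zmod_eq_zero_iff_dvd] at h3
      have : n = 0 := Int.eq_zero_of_abs_lt_dvd h3 (by
        rw [abs_lt]
        push_cast
        constructor <;> linarith [hγ.1, hγ.2, (by exact_mod_cast hM : (R : ℤ) < M)])
      rw [this]
    · simp only [twisted] at hg
      have h3 : ((n + M : ℤ) : ZMod (2 * M)) = 0 := by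
        push_cast
        simpa using hg
      rw [ZMod.intCast_zmod_eq_zero_iff_dvd] at h3
      have hM1 : (R : ℤ) < M := by exact_mod_cast hM
      have : n + M = 0 := Int.eq_zero_of_abs_lt_dvd h3 (by
        rw [abs_lt]
        push_cast
        constructor <;> linarith [hγ.1, hγ.2])
      omega
  · rw [Nat.card_zmod]
    omega

end Pool.Agent.R612.DP
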